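import Pool.Agent.H76.CW.StmtB

/-!
Row SCH of the board cw_modules: the Cantor scheme.
-/

set_option autoImplicit false

open Set Pool.Agent.TK Pool.Agent.H71.VK

namespace Pool.Agent.CW

private theorem sch_split (j : ℕ) (s : List Bool) (h : j + 1 ≤ s.length) :
    ∃ (u : List Bool) (i : Bool) (s' : List Bool), s = u ++ (i :: s') ∧ s'.length = j := by
  have h1 : (s.drop (s.length - (j + 1))).length = j + 1 := by
    rw [List.length_drop]
    omega
  obtain ⟨i, s', hs'⟩ : ∃ i s', s.drop (s.length - (j + 1)) = i :: s' := by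
    cases hd : s.drop (s.length - (j + 1)) with
    | nil => rw [hd] at h1; simp at h1
    | cons i s' => exact ⟨i, s', rfl⟩
  refine ⟨s.take (s.length - (j + 1)), i, s', ?_, ?_⟩
  · rw [← hs', List.take_append_drop]
  · rw [hs'] at h1
    simpa using h1

theorem pf_SCH (hNOD : T_NOD) (hAVO : T_AVO) : T_SCH := by
  classical
  intro n c Sm G k hw
  -- the root
  obtain ⟨σ0, hv0, hg0, -, ha0⟩ := hAVO n c Sm G k hw [] trivial G.good_univ []
  obtain ⟨π0, hπ0⟩ : ∃ π0, π0 = σ0 ++ ([] : Pr) := ⟨_, rfl⟩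
  rw [← hπ0] at hv0 hg0 ha0
  -- enumeration
  obtain ⟨e, he⟩ : ∃ e : ℕ → Pr, Function.Surjective e := exists_surjective_nat Pr
  obtain ⟨ρ, hρv, hρs⟩ : ∃ ρ : ℕ → Pr, (∀ j, Vd c (ρ j)) ∧ ∀ τ, Vd c τ → ∃ j, ρ j = τ := by
    refine ⟨fun j => if Vd c (e j) then e j else [], fun j => ?_, fun τ hτ => ?_⟩
    · by_cases h : Vd c (e j)
      · simp only [h, if_true]
      · simp only [h, if_false]
        trivial
    · obtain ⟨j, rfl⟩ := he τ
      exact ⟨j, by simp only [hτ, if_true]⟩
  -- node data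
  have hf : ∀ (π : Pr) (j : ℕ), ∃ f : Fin 3 → Pr, (Vd c π ∧ ¬ G.Nn (st c π)) →
      ∀ i, (∃ σ : Pr, f i = σ ++ π) ∧ Vd c (f i) ∧ ¬ G.Nn (st c (f i)) ∧
      (∀ a ∈ List.range (j + 1), a ∉ st c (f i)) ∧ (∀ j, ∀ a ∈ dl (f i), a ∉ st c (f j)) ∧
      (∀ j, i ≠ j → Disjoint (st c (f i)) (st c (f j))) ∧
      (st c (f i) ⊆ st c (ρ j) ∨ Disjoint (st c (f i)) (st c (ρ j))) := by
    intro π j
    by_cases h : Vd c π ∧ ¬ G.Nn (st c π)
    · obtain ⟨f, hf⟩ := hNOD n c Sm G k hw π h.1 h.2 (List.range (j + 1)) (ρ j) (hρv j)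
      exact ⟨f, fun _ => hf⟩
    · exact ⟨fun _ => π, fun h' => absurd h' h⟩
  choose f hf using hf
  let ix : Bool → Fin 3 := fun b => if b then 0 else 1
  have hix2 : ∀ b, (2 : Fin 3) ≠ ix b := by
    intro b
    cases b <;> simp [ix]
  have hixne : ∀ b b' : Bool, b ≠ b' → ix b ≠ ix b' := by
    intro b b' hb
    cases b <;> cases b' <;> simp [ix] at hb ⊢
  let D : List Bool → Pr := fun s => List.rec π0 (fun b s ih => f ih s.length (ix b)) s
  have hD0 : D [] = π0 := rfl
  have hDc : ∀ b s, D (b :: s) = f (D s) s.length (ix b) := fun b s => rfl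
  obtain ⟨B, hB⟩ : ∃ B : List Bool → Pr, ∀ s, B s = f (D s) s.length 2 := ⟨_, fun _ => rfl⟩
  have hD : ∀ s, Vd c (D s) ∧ ¬ G.Nn (st c (D s)) := by
    intro s
    induction s with
    | nil => exact ⟨hv0, hg0⟩
    | cons b s ih =>
      have h := hf (D s) s.length ih (ix b)
      rw [hDc]
      exact ⟨h.2.1, h.2.2.1⟩
  have hN := fun s => hf (D s) s.length (hD s)
  clear_value D
  -- extensions
  have hsuf : ∀ i s, ∃ σ : Pr, D (i :: s) = σ ++ D s := fun i s => by
    rw [hDc]
    exact (hN s (ix i)).1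
  have hsuB : ∀ s, ∃ σ : Pr, B s = σ ++ D s := fun s => by
    rw [hB]
    exact (hN s 2).1
  have hvB : ∀ s, Vd c (B s) := fun s => by
    rw [hB]
    exact (hN s 2).2.1
  have hgB : ∀ s, ¬ G.Nn (st c (B s)) := fun s => by
    rw [hB]
    exact (hN s 2).2.2.1
  have hsub1 : ∀ i s, st c (D (i :: s)) ⊆ st c (D s) := by
    intro i s
    obtain ⟨σ, hσ⟩ := hsuf i s
    have h1 := (hD (i :: s)).1
    rw [hσ] at h1 ⊢
    exact st_app h1
  have hsub : ∀ u s, st c (D (u ++ s)) ⊆ st c (D s) := by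
    intro u s
    induction u with
    | nil => exact subset_rfl
    | cons i u ih => exact (hsub1 i (u ++ s)).trans ih
  have hsubB : ∀ u s, st c (B (u ++ s)) ⊆ st c (D s) := by
    intro u s
    obtain ⟨σ, hσ⟩ := hsuB (u ++ s)
    have h1 := hvB (u ++ s)
    rw [hσ] at h1 ⊢
    exact (st_app h1).trans (hsub u s)
  have hcross : ∀ s i i', ∀ a ∈ dl (f (D s) s.length i), a ∉ st c (f (D s) s.length i') :=
    fun s i i' => (hN s i).2.2.2.2.1 i'
  have hdisj : ∀ s i i', i ≠ i' → Disjoint (st c (f (D s) s.length i))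
      (st c (f (D s) s.length i')) := fun s i i' h => (hN s i).2.2.2.2.2.1 i' h
  have hdjB : ∀ i s, Disjoint (st c (B s)) (st c (D (i :: s))) := by
    intro i s
    rw [hB, hDc]
    exact hdisj s 2 (ix i) (hix2 i)
  have hdj : ∀ (i j : Bool) (s : List Bool), i ≠ j →
      Disjoint (st c (D (i :: s))) (st c (D (j :: s))) := by
    intro i j s hij
    rw [hDc, hDc]
    exact hdisj s _ _ (hixne i j hij)
  -- position of two nodes
  have hpos : ∀ s t, (t = s ∨ ∃ u j, t = u ++ (j :: s)) ∨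
      Disjoint (st c (B t)) (st c (D s)) := by
    intro s
    induction s with
    | nil =>
      intro t
      left
      rcases List.eq_nil_or_concat t with h | ⟨u, j, h⟩
      · exact Or.inl h
      · exact Or.inr ⟨u, j, by rw [h, List.concat_eq_append]⟩
    | cons i s ih =>
      intro t
      rcases ih t with (rfl | ⟨u, j, rfl⟩) | h
      · exact Or.inr (hdjB i t)
      · by_cases hij : j = i
        · subst hij
          left
          rcases List.eq_nil_or_concat u with rfl | ⟨u', j', rfl⟩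
          · exact Or.inl rfl
          · exact Or.inr ⟨u', j', by simp⟩
        · right
          exact (hdj j i s hij).mono_left (hsubB u (j :: s))
      · exact Or.inr (h.mono_right (hsub1 i s))
  have hpD : ∀ s t, ∀ a ∈ dl (D s), a ∉ st c (B t) := by
    intro s
    induction s with
    | nil =>
      intro t a ha hat
      have h1 := hsubB t []
      rw [List.append_nil] at h1
      exact ha0 a (by rw [hD0] at ha; exact ha) (by have := h1 hat; rwa [hD0] at this)
    | cons i s ih =>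
      intro t a ha hat
      rcases hpos s t with (rfl | ⟨u, j, rfl⟩) | h
      · rw [hDc] at ha
        rw [hB] at hat
        exact hcross t (ix i) 2 a ha hat
      · rw [hDc] at ha
        have h1 := hsubB u (j :: s) hat
        rw [hDc] at h1
        exact hcross s (ix i) (ix j) a ha h1
      · obtain ⟨σ, hσ⟩ := hsuf i s
        have h1 := (hD (i :: s)).1
        rw [hσ] at h1 ha
        rcases dl_ext h1 a ha with h2 | h2
        · exact ih t a h2 hat
        · exact Set.disjoint_left.1 h hat h2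
  have hpB : ∀ s t, ∀ a ∈ dl (B s), a ∉ st c (B t) := by
    intro s t a ha hat
    rcases hpos s t with (rfl | ⟨u, j, rfl⟩) | h
    · rw [hB] at ha hat
      exact hcross t 2 2 a ha hat
    · rw [hB] at ha
      have h1 := hsubB u (j :: s) hat
      rw [hDc] at h1
      exact hcross s 2 (ix j) a ha h1
    · obtain ⟨σ, hσ⟩ := hsuB s
      have h1 := hvB s
      rw [hσ] at h1 ha
      rcases dl_ext h1 a ha with h2 | h2
      · exact hpD s t a h2 hat
      · exact Set.disjoint_left.1 h hat h2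
  refine ⟨D, B, ⟨fun s => (hD s).1, hvB, hsuf, hsuB, fun s => hdj true false s (by decide),
    hdjB, hpD, hpB, ?_, ?_, ?_, ?_⟩⟩
  · intro τ hτ
    obtain ⟨j, rfl⟩ := hρs τ hτ
    refine ⟨j + 1, fun s hs => ?_⟩
    obtain ⟨u, i, s', rfl, hs'⟩ := sch_split j s hs
    have h1 := (hN s' (ix i)).2.2.2.2.2.2
    rw [← hDc, hs'] at h1
    rcases h1 with h1 | h1
    · exact Or.inl ((hsub u (i :: s')).trans h1)
    · exact Or.inr (h1.mono_left (hsub u (i :: s')))
  · intro v
    refine ⟨v + 1, fun s hs hv => ?_⟩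
    obtain ⟨u, i, s', rfl, hs'⟩ := sch_split v s hs
    have h1 := (hN s' (ix i)).2.2.2.1 v (by rw [hs']; simp)
    rw [← hDc] at h1
    exact h1 (hsub u (i :: s') hv)
  · intro s
    rw [Set.nonempty_iff_ne_empty]
    intro h
    apply hgB s
    rw [h]
    exact G.nn_empty
  · intro s h
    exact hgB s (G.nn_sm (hvB s) h)

end Pool.Agent.CW
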