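import Pool.Agent.H71.CW.Wid

set_option autoImplicit false

open Set

namespace Pool.Agent.CW

private theorem few_map {c c' : ℕ → ℕ → ℕ} {g : Equiv.Perm ℕ}
    (h : ∀ i j, c' (g i) (g j) = c i j) {k : ℕ} {Y A : Set ℕ} (hf : Few c k Y A) :
    Few c' k (g '' Y) (g '' A) := by
  obtain ⟨f, hf⟩ := hf
  refine ⟨fun x => f (g.symm x), ?_⟩
  rintro _ ⟨a, ha, rfl⟩ _ ⟨a', ha', rfl⟩ haa _ ⟨z, hz, rfl⟩
  simp only [Equiv.symm_apply_apply] at haa
  have := hf a ha a' ha' haa z hz
  simpa only [ee, h] using this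

private theorem mw_map {c c' : ℕ → ℕ → ℕ} {g : Equiv.Perm ℕ}
    (h : ∀ i j, c' (g i) (g j) = c i j) {k : ℕ} {W A : Finset ℕ} (hA : MW c k W A) :
    MW c' k (W.map g.toEmbedding) (A.map g.toEmbedding) := by
  induction hA with
  | sing x hx =>
    rw [Finset.map_singleton]
    exact MW.sing _ (Finset.mem_map_of_mem _ hx)
  | join A B hA hB hd hf ihA ihB =>
    rw [Finset.map_union]
    refine MW.join _ _ ihA ihB ((Finset.disjoint_map _).2 hd) ?_
    have h1 := few_map h hf
    rw [Set.image_sdiff g.injective] at h1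
    rw [← Finset.map_union, Finset.coe_map, Finset.coe_map]
    exact h1

theorem pf_WIN : WIN := by
  intro c c' g h k hW W hne
  have h1 := mw_map h (hW (W.map g.symm.toEmbedding) (hne.map))
  have h2 : (W.map g.symm.toEmbedding).map g.toEmbedding = W := by
    rw [Finset.map_map]
    convert Finset.map_refl
    ext x
    simp
  rwa [h2] at h1

end Pool.Agent.CW
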